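import Mathlib

set_option autoImplicit false

open MeasureTheory Set
open scoped ENNReal Pointwise

namespace Pool.Agent.TH666.MS

/-- the Beta integral -/
lemma beta_J (m : ℕ) : ∀ n : ℕ, ∫ s in (0:ℝ)..1, s ^ n * (1 - s) ^ m =
    (n.factorial * m.factorial : ℝ) / (n + m + 1).factorial := by
  induction m with
  | zero =>
    intro n
    simp only [pow_zero, mul_one, Nat.factorial_zero, Nat.cast_one, add_zero]
    rw [integral_pow]
    simp only [one_pow, ne_eq, Nat.add_eq_zero_iff, one_ne_zero, and_false, not_false_eq_true,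
      zero_pow, sub_zero]
    rw [Nat.factorial_succ]
    push_cast
    have : (n.factorial : ℝ) ≠ 0 := by exact_mod_cast n.factorial_ne_zero
    have h2 : (n : ℝ) + 1 ≠ 0 := by positivity
    field_simp
  | succ m ih =>
    intro n
    have h1 := ih (n + 1)
    -- integration by parts
    have hd : ∀ s : ℝ, HasDerivAt (fun s : ℝ => s ^ (n + 1) * (1 - s) ^ (m + 1))
        ((n + 1) * (s ^ n * (1 - s) ^ (m + 1)) - (m + 1) * (s ^ (n + 1) * (1 - s) ^ m)) s := by
      intro s
      have e1 : HasDerivAt (fun s : ℝ => s ^ (n + 1)) (((n + 1 : ℕ) : ℝ) * s ^ n) s := by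
        simpa using hasDerivAt_pow (n + 1) s
      have e2 : HasDerivAt (fun s : ℝ => (1 - s)) (-1 : ℝ) s := by
        simpa using (hasDerivAt_id s).const_sub 1
      have e3 : HasDerivAt (fun s : ℝ => (1 - s) ^ (m + 1)) (((m + 1 : ℕ) : ℝ) * (1 - s) ^ m * (-1)) s := by
        exact e2.fun_pow (m + 1)
      have e4 := e1.fun_mul e3
      refine e4.congr_deriv ?_
      push_cast
      ring
    have hc1 : Continuous (fun s : ℝ => ((n:ℝ) + 1) * (s ^ n * (1 - s) ^ (m + 1))) := by fun_prop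
    have hc2 : Continuous (fun s : ℝ => ((m:ℝ) + 1) * (s ^ (n + 1) * (1 - s) ^ m)) := by fun_prop
    have h2 := intervalIntegral.integral_eq_sub_of_hasDerivAt (a := 0) (b := 1)
      (fun s _ => hd s) ((hc1.sub hc2).intervalIntegrable _ _)
    rw [intervalIntegral.integral_sub (hc1.intervalIntegrable _ _) (hc2.intervalIntegrable _ _),
      intervalIntegral.integral_const_mul, intervalIntegral.integral_const_mul, h1] at h2
    simp only [one_pow, sub_self, ne_eq, Nat.add_eq_zero_iff, one_ne_zero, and_false,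
      not_false_eq_true, zero_pow, mul_zero, zero_mul, sub_zero] at h2
    have h3 : (n : ℝ) + 1 ≠ 0 := by positivity
    have h4 : ∫ s in (0:ℝ)..1, s ^ n * (1 - s) ^ (m + 1) = ((m:ℝ) + 1) / (n + 1) *
        (((n + 1).factorial * m.factorial : ℝ) / (n + 1 + m + 1).factorial) := by
      field_simp
      field_simp at h2
      linarith
    rw [h4, show n + 1 + m + 1 = n + (m + 1) + 1 by ring, Nat.factorial_succ n,
      Nat.factorial_succ m]
    push_cast
    field_simp

lemma beta_choose (b n : ℕ) (hb : 1 ≤ b) : ∫ s in (0:ℝ)..1, (b:ℝ) * (1 - s) ^ (b - 1) * s ^ n =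
    ((n + b).choose b : ℝ)⁻¹ := by
  obtain ⟨m, rfl⟩ : ∃ m, b = m + 1 := ⟨b - 1, by omega⟩
  have h1 : ∀ s : ℝ, ((m + 1 : ℕ):ℝ) * (1 - s) ^ (m + 1 - 1) * s ^ n =
      ((m + 1 : ℕ):ℝ) * (s ^ n * (1 - s) ^ m) := by
    intro s
    simp only [Nat.add_sub_cancel]
    ring
  simp_rw [h1]
  rw [intervalIntegral.integral_const_mul, beta_J]
  have h2 : ((n + (m + 1)).choose (m + 1) : ℝ) =
      ((n + (m + 1)).factorial : ℝ) / ((m + 1).factorial * n.factorial) := by
    rw [Nat.cast_choose ℝ (by omega : m + 1 ≤ n + (m + 1))]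
    congr 3
    rw [Nat.add_sub_cancel]
  rw [h2, inv_div, Nat.factorial_succ m, show n + (m + 1) = n + m + 1 by ring]
  push_cast
  ring

/-- `∫_m^1 b(1-s)^(b-1) ds = (1-m)^b` as a lower integral -/
lemma tail_int (b : ℕ) (hb : 1 ≤ b) {m : ℝ} (hm1 : m ≤ 1) :
    ∫⁻ s in Set.Icc m 1, ENNReal.ofReal ((b:ℝ) * (1 - s) ^ (b - 1)) = ENNReal.ofReal ((1 - m) ^ b) := by
  have hc : Continuous (fun s : ℝ => (b:ℝ) * (1 - s) ^ (b - 1)) := by fun_prop
  rw [← ofReal_integral_eq_lintegral_ofReal (hc.integrableOn_Icc)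
    ((ae_restrict_iff' measurableSet_Icc).2 (Filter.Eventually.of_forall fun t ht => by
      have : 0 ≤ 1 - t := by linarith [ht.2]
      simp only [Pi.zero_apply]
      positivity))]
  congr 1
  rw [integral_Icc_eq_integral_Ioc, ← intervalIntegral.integral_of_le hm1]
  have hd : ∀ s : ℝ, HasDerivAt (fun s : ℝ => -(1 - s) ^ b) ((b:ℝ) * (1 - s) ^ (b - 1)) s := by
    intro s
    have e2 : HasDerivAt (fun s : ℝ => (1 - s)) (-1 : ℝ) s := by
      simpa using (hasDerivAt_id s).const_sub 1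
    refine (e2.fun_pow b).fun_neg.congr_deriv ?_
    ring
  rw [intervalIntegral.integral_eq_sub_of_hasDerivAt (fun s _ => hd s) (hc.intervalIntegrable _ _)]
  rw [sub_self, zero_pow (by omega : b ≠ 0)]
  ring

lemma beta_lint (b n : ℕ) (hb : 1 ≤ b) :
    ∫⁻ s in Set.Icc (0:ℝ) 1, ENNReal.ofReal ((b:ℝ) * (1 - s) ^ (b - 1)) * ENNReal.ofReal (s ^ n) =
      ENNReal.ofReal (((n + b).choose b : ℝ)⁻¹) := by
  have hc : Continuous (fun s : ℝ => (b:ℝ) * (1 - s) ^ (b - 1) * s ^ n) := by fun_prop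
  have h1 : ∫⁻ s in Set.Icc (0:ℝ) 1, ENNReal.ofReal ((b:ℝ) * (1 - s) ^ (b - 1)) * ENNReal.ofReal (s ^ n)
      = ∫⁻ s in Set.Icc (0:ℝ) 1, ENNReal.ofReal ((b:ℝ) * (1 - s) ^ (b - 1) * s ^ n) := by
    refine setLIntegral_congr_fun measurableSet_Icc fun s hs => ?_
    have : 0 ≤ 1 - s := by linarith [hs.2]
    exact (ENNReal.ofReal_mul (by positivity)).symm
  rw [h1, ← ofReal_integral_eq_lintegral_ofReal (hc.integrableOn_Icc)
    ((ae_restrict_iff' measurableSet_Icc).2 (Filter.Eventually.of_forall fun t ht => by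
      have : 0 ≤ 1 - t := by linarith [ht.2]
      have h2 : 0 ≤ t := ht.1
      simp only [Pi.zero_apply]
      positivity))]
  congr 1
  rw [integral_Icc_eq_integral_Ioc, ← intervalIntegral.integral_of_le zero_le_one]
  exact beta_choose b n hb

end Pool.Agent.TH666.MS
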