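import Pool.Agent.TH666.MS.A

set_option autoImplicit false

open MeasureTheory Set
open scoped ENNReal Pointwise

namespace Pool.Agent.TH666.MS

variable {n b : ℕ} {K : Set (Fin n → ℝ)} {π : (Fin n → ℝ) →ₗ[ℝ] (Fin b → ℝ)}

/-- the body `{(v - u, π u) : u, v ∈ K}` -/
def DD (K : Set (Fin n → ℝ)) (π : (Fin n → ℝ) →ₗ[ℝ] (Fin b → ℝ)) :
    Set ((Fin n → ℝ) × (Fin b → ℝ)) := {q | ∃ u ∈ K, q.1 + u ∈ K ∧ π u = q.2}

lemma DD_compact (hK : IsCompact K) : IsCompact (DD K π) := by
  have hπ : Continuous π := π.continuous_of_finiteDimensional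
  have : DD K π = (fun q : (Fin n → ℝ) × (Fin n → ℝ) => (q.2 - q.1, π q.1)) '' (K ×ˢ K) := by
    ext q
    constructor
    · rintro ⟨u, hu, hv, h⟩
      exact ⟨(u, q.1 + u), ⟨hu, hv⟩, by ext1 <;> simp [h]⟩
    · rintro ⟨⟨u, v⟩, ⟨hu, hv⟩, rfl⟩
      exact ⟨u, hu, by simpa using hv, rfl⟩
  rw [this]
  exact (hK.prod hK).image (by fun_prop)

lemma DD_upper {ρ : ℝ} (hρ : 0 ≤ ρ) (hK : Convex ℝ K) (hc : IsCompact K)
    (h : ∀ x ∈ K, ∃ c, ∀ y ∈ K, π y = π x → c - y ∈ ρ • K) :
    volume (DD K π) ≤ ENNReal.ofReal ((1 + ρ) ^ n) * volume K * volume (π '' K) := by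
  rw [Measure.volume_eq_prod, Measure.prod_apply_symm (DD_compact hc).measurableSet]
  have hπ : Continuous π := π.continuous_of_finiteDimensional
  have hP : MeasurableSet (π '' K) := (hc.image hπ).measurableSet
  rw [← lintegral_indicator_const hP]
  refine lintegral_mono fun y => ?_
  by_cases hy : y ∈ π '' K
  · rw [Set.indicator_of_mem hy]
    obtain ⟨x, hx, rfl⟩ := hy
    obtain ⟨c, hc'⟩ := h x hx
    have hsub : (fun z => (z, π x)) ⁻¹' DD K π ⊆ (fun z => z + c) ⁻¹' ((1 + ρ) • K) := by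
      rintro z ⟨u, hu, hv, hxu⟩
      have h1 : c - u ∈ ρ • K := hc' u hu hxu
      rw [hK.add_smul zero_le_one hρ, one_smul]
      refine ⟨z + u, hv, c - u, h1, ?_⟩
      simp
    refine (measure_mono hsub).trans ?_
    rw [measure_preimage_add_right, Measure.addHaar_smul, Module.finrank_fin_fun,
      abs_of_nonneg (by positivity)]
  · rw [Set.indicator_of_notMem hy]
    have : (fun z => (z, y)) ⁻¹' DD K π = ∅ := by
      ext z
      simp only [mem_preimage, mem_empty_iff_false, iff_false]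
      rintro ⟨u, hu, -, h⟩
      exact hy ⟨u, hu, h⟩
    rw [this, measure_empty]

lemma DD_lower (hK : Convex ℝ K) {z : Fin n → ℝ} {s : ℝ} (hs0 : 0 ≤ s) (hs1 : s ≤ 1)
    (hz : z ∈ s • (K - K)) :
    ENNReal.ofReal ((1 - s) ^ b) * volume (π '' K) ≤ volume (Prod.mk z ⁻¹' DD K π) := by
  obtain ⟨_, ⟨k1, hk1, k2, hk2, rfl⟩, rfl⟩ := hz
  have hsub : (fun y => y + (-(s • π k2))) ⁻¹' ((1 - s) • (π '' K)) ⊆
      Prod.mk (s • (k1 - k2)) ⁻¹' DD K π := by
    rintro y ⟨_, ⟨k, hk, rfl⟩, hy⟩
    refine ⟨(1 - s) • k + s • k2, hK hk hk2 (by linarith) hs0 (by ring), ?_, ?_⟩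
    · have : s • (k1 - k2) + ((1 - s) • k + s • k2) = (1 - s) • k + s • k1 := by
        rw [smul_sub]; abel
      simp only [this]
      exact hK hk hk1 (by linarith) hs0 (by ring)
    · simp only [map_add, map_smul]
      simp only at hy
      rw [hy]
      abel
  refine le_trans (le_of_eq ?_) (measure_mono hsub)
  rw [measure_preimage_add_right, Measure.addHaar_smul, Module.finrank_fin_fun,
    abs_of_nonneg (by have : 0 ≤ 1 - s := by linarith
                      positivity)]

/-- the cone `{(z, s) : 0 ≤ s ≤ 1, z ∈ s L}` -/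
def TT (L : Set (Fin n → ℝ)) : Set ((Fin n → ℝ) × ℝ) := {q | q.2 ∈ Icc (0:ℝ) 1 ∧ q.1 ∈ q.2 • L}

lemma TT_compact {L : Set (Fin n → ℝ)} (hL : IsCompact L) : IsCompact (TT L) := by
  have : TT L = (fun q : ℝ × (Fin n → ℝ) => (q.1 • q.2, q.1)) '' (Icc (0:ℝ) 1 ×ˢ L) := by
    ext q
    constructor
    · rintro ⟨h1, w, hw, hq⟩
      exact ⟨(q.2, w), ⟨h1, hw⟩, by ext1 <;> simp [← hq]⟩
    · rintro ⟨⟨s, w⟩, ⟨h1, hw⟩, rfl⟩
      exact ⟨h1, w, hw, rfl⟩
  rw [this]
  exact (isCompact_Icc.prod hL).image (by fun_prop)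

lemma lay_le (hb : 1 ≤ b) (hK : Convex ℝ K) (z : Fin n → ℝ) :
    (∫⁻ s in Icc (0:ℝ) 1, ENNReal.ofReal ((b:ℝ) * (1 - s) ^ (b - 1)) *
      (TT (K - K)).indicator 1 (z, s)) * volume (π '' K) ≤ volume (Prod.mk z ⁻¹' DD K π) := by
  classical
  set A : Set ℝ := {s | (z, s) ∈ TT (K - K)} with hA
  by_cases hne : A.Nonempty
  · set m := sInf A with hm
    have hbdd : BddBelow A := ⟨0, fun t ht => ht.1.1⟩
    have hm0 : 0 ≤ m := le_csInf hne fun t ht => ht.1.1
    have hm1 : m ≤ 1 := by
      obtain ⟨t, ht⟩ := hne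
      exact (csInf_le hbdd ht).trans ht.1.2
    have h1 : ∫⁻ s in Icc (0:ℝ) 1, ENNReal.ofReal ((b:ℝ) * (1 - s) ^ (b - 1)) *
      (TT (K - K)).indicator 1 (z, s) ≤ ENNReal.ofReal ((1 - m) ^ b) := by
      rw [← tail_int b hb hm1, ← lintegral_indicator measurableSet_Icc,
        ← lintegral_indicator measurableSet_Icc]
      refine lintegral_mono fun s => ?_
      by_cases hs : s ∈ Icc (0:ℝ) 1
      · rw [Set.indicator_of_mem hs]
        by_cases ht : (z, s) ∈ TT (K - K)
        · rw [Set.indicator_of_mem ht,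
            Set.indicator_of_mem (show s ∈ Icc m 1 from ⟨csInf_le hbdd ht, hs.2⟩)]
          simp
        · rw [Set.indicator_of_notMem ht, mul_zero]
          exact bot_le
      · rw [Set.indicator_of_notMem hs]
        exact bot_le
    refine (mul_le_mul_left h1 _).trans ?_
    obtain ⟨u, hu, hlim, hmem⟩ := exists_seq_tendsto_sInf hne hbdd
    by_cases htop : volume (π '' K) = ⊤
    · -- degenerate case
      by_cases hlt : m < 1
      · obtain ⟨t, htA, htlt⟩ := (csInf_lt_iff hbdd hne).1 hlt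
        have h2 := DD_lower (π := π) hK htA.1.1 htA.1.2 htA.2
        have h3 : ENNReal.ofReal ((1 - t) ^ b) * volume (π '' K) = ⊤ := by
          rw [htop]
          refine ENNReal.mul_top ?_
          have : 0 < 1 - t := by linarith
          simp only [ne_eq, ENNReal.ofReal_eq_zero, not_le]
          positivity
        rw [h3, top_le_iff] at h2
        rw [h2]
        exact le_top
      · have : m = 1 := le_antisymm hm1 (not_lt.1 hlt)
        rw [this, sub_self, zero_pow (by omega : b ≠ 0)]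
        simp
    have h4 : Filter.Tendsto (fun k => ENNReal.ofReal ((1 - u k) ^ b) * volume (π '' K)) Filter.atTop
        (nhds (ENNReal.ofReal ((1 - m) ^ b) * volume (π '' K))) := by
      refine ENNReal.Tendsto.mul_const ?_ (Or.inr htop)
      refine ENNReal.tendsto_ofReal ?_
      have : Continuous (fun s : ℝ => (1 - s) ^ b) := by fun_prop
      exact this.continuousAt.tendsto.comp hlim
    exact le_of_tendsto h4 (Filter.Eventually.of_forall fun k =>
      DD_lower hK (hmem k).1.1 (hmem k).1.2 (hmem k).2)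
  · have h1 : ∀ s, (TT (K - K)).indicator (1 : (Fin n → ℝ) × ℝ → ℝ≥0∞) (z, s) = 0 := by
      intro s
      rw [Set.indicator_of_notMem]
      intro h
      exact hne ⟨s, h⟩
    simp [h1]

lemma lint_lay (hb : 1 ≤ b) {L : Set (Fin n → ℝ)} (hL : IsCompact L) :
    ∫⁻ z : Fin n → ℝ, ∫⁻ s in Icc (0:ℝ) 1, ENNReal.ofReal ((b:ℝ) * (1 - s) ^ (b - 1)) *
      (TT L).indicator 1 (z, s) = ENNReal.ofReal (((n + b).choose b : ℝ)⁻¹) * volume L := by
  have hT : MeasurableSet (TT L) := (TT_compact hL).measurableSet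
  have hw : Measurable (fun s : ℝ => ENNReal.ofReal ((b:ℝ) * (1 - s) ^ (b - 1))) := by
    have : Continuous (fun s : ℝ => (b:ℝ) * (1 - s) ^ (b - 1)) := by fun_prop
    exact this.measurable.ennreal_ofReal
  rw [lintegral_lintegral_swap]
  swap
  · refine Measurable.aemeasurable ?_
    exact (hw.comp measurable_snd).mul (measurable_one.indicator hT)
  have hw2 : Measurable (fun s : ℝ => ENNReal.ofReal ((b:ℝ) * (1 - s) ^ (b - 1)) *
      ENNReal.ofReal (s ^ n)) := hw.mul ((measurable_id.pow_const n).ennreal_ofReal)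
  rw [← beta_lint b n hb, ← lintegral_mul_const _ hw2]
  refine setLIntegral_congr_fun measurableSet_Icc fun s hs => ?_
  have h1 : ∀ z : Fin n → ℝ, (TT L).indicator (1 : (Fin n → ℝ) × ℝ → ℝ≥0∞) (z, s) =
      (s • L).indicator (fun _ => 1) z := by
    intro z
    by_cases hz : z ∈ s • L
    · rw [Set.indicator_of_mem hz, Set.indicator_of_mem (show (z, s) ∈ TT L from ⟨hs, hz⟩)]
      rfl
    · rw [Set.indicator_of_notMem hz, Set.indicator_of_notMem]
      exact fun h => hz h.2
  simp_rw [h1]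
  rw [lintegral_const_mul _ (measurable_const.indicator (hL.smul s).measurableSet),
    lintegral_indicator_const (hL.smul s).measurableSet, one_mul, Measure.addHaar_smul,
    Module.finrank_fin_fun, abs_of_nonneg (by have := hs.1; positivity), mul_assoc]

lemma isCompact_sub' (hK : IsCompact K) : IsCompact (K - K) := by
  rw [sub_eq_add_neg]; exact hK.add hK.neg

/-- **Lower bound for the volume of `{(v - u, π u)}`.** -/
theorem DD_ge (hb : 1 ≤ b) (hK : Convex ℝ K) (hc : IsCompact K) :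
    ENNReal.ofReal (((n + b).choose b : ℝ)⁻¹) * volume (K - K) * volume (π '' K) ≤
      volume (DD K π) := by
  have hc' : IsCompact (K - K) := isCompact_sub' hc
  have hT : MeasurableSet (TT (K - K)) := (TT_compact hc').measurableSet
  have hw : Measurable (fun s : ℝ => ENNReal.ofReal ((b:ℝ) * (1 - s) ^ (b - 1))) := by
    have : Continuous (fun s : ℝ => (b:ℝ) * (1 - s) ^ (b - 1)) := by fun_prop
    exact this.measurable.ennreal_ofReal
  have hm : Measurable (fun q : (Fin n → ℝ) × ℝ => ENNReal.ofReal ((b:ℝ) * (1 - q.2) ^ (b - 1)) *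
      (TT (K - K)).indicator 1 (q.1, q.2)) :=
    (hw.comp measurable_snd).mul (measurable_one.indicator hT)
  rw [← lint_lay hb hc', ← lintegral_mul_const]
  · rw [Measure.volume_eq_prod, Measure.prod_apply (DD_compact hc).measurableSet]
    exact lintegral_mono fun z => lay_le hb hK z
  · exact hm.lintegral_prod_right'

lemma image_pos (hπ : Function.Surjective π) (hi : (interior K).Nonempty) :
    0 < volume (π '' K) := by
  have ho : IsOpenMap π := by
    have := (LinearMap.toContinuousLinearMap π).isOpenMap (by simpa using hπ)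
    simpa using this
  have h1 : IsOpen (π '' interior K) := ho _ isOpen_interior
  exact (h1.measure_pos volume (hi.image _)).trans_le (measure_mono (image_mono interior_subset))

/-- **Difference bodies of convex bodies with reflected sections.** -/
theorem diff_le (hb : 1 ≤ b) {ρ : ℝ} (hρ : 0 ≤ ρ) (hK : Convex ℝ K) (hc : IsCompact K)
    (hi : (interior K).Nonempty) (hπ : Function.Surjective π)
    (h : ∀ x ∈ K, ∃ c, ∀ y ∈ K, π y = π x → c - y ∈ ρ • K) :
    volume (K - K) ≤ ENNReal.ofReal ((n + b).choose b * (1 + ρ) ^ n) * volume K := by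
  have h1 := (DD_ge (π := π) hb hK hc).trans (DD_upper hρ hK hc h)
  have hP0 : volume (π '' K) ≠ 0 := (image_pos hπ hi).ne'
  have hP1 : volume (π '' K) ≠ ⊤ :=
    (hc.image π.continuous_of_finiteDimensional).measure_ne_top
  have h2 := (ENNReal.mul_le_mul_iff_left hP0 hP1).1 h1
  have hC : (0:ℝ) < ((n + b).choose b : ℝ) := by
    exact_mod_cast Nat.choose_pos (by omega : b ≤ n + b)
  have h3 : volume (K - K) = ENNReal.ofReal ((n + b).choose b : ℝ) *
      (ENNReal.ofReal (((n + b).choose b : ℝ)⁻¹) * volume (K - K)) := by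
    rw [← mul_assoc, ← ENNReal.ofReal_mul hC.le, mul_inv_cancel₀ hC.ne', ENNReal.ofReal_one, one_mul]
  rw [h3]
  calc _ ≤ ENNReal.ofReal ((n + b).choose b : ℝ) * (ENNReal.ofReal ((1 + ρ) ^ n) * volume K) := by
        gcongr
    _ = _ := by rw [← mul_assoc, ← ENNReal.ofReal_mul hC.le]

end Pool.Agent.TH666.MS
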