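import Pool.Agent.TH666.MS.B
import Pool.Agent.W570.NQ.L4

set_option autoImplicit false

namespace Pool.Agent.TH666.MS

/-- `q` with `C(n+b, b) ≤ qⁿ`, `b = (n-1)/7`, times 1000 -/
def qs : List ℕ := [1317, 1300, 1280, 1260, 1240, 1230, 1220, 1390, 1370, 1360, 1340, 1330, 1320,
  1310, 1430, 1410, 1400, 1390, 1380, 1370, 1360, 1450, 1440, 1420, 1410, 1400, 1400, 1390, 1460,
  1450, 1440, 1430, 1420, 1420, 1410, 1470, 1460, 1450, 1450, 1440, 1430, 1430]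

def qq (n : ℕ) : ℚ := (qs.getD (n - 8) 1 : ℚ) / 1000

lemma small_check : ∀ n ∈ Finset.Icc 8 49, 0 < qq n ∧
    ((n + (n - 1) / 7).choose ((n - 1) / 7) : ℚ) ≤ qq n ^ n ∧
    (10019 / 10000 : ℚ) ^ n * ((n : ℚ) + 1) ^ (n + 1) < (2 + 2 / qq n ^ 2) ^ n * (n.factorial : ℚ) := by
  decide +kernel

lemma choose_mono {n b b' : ℕ} (h : b ≤ b') : (n + b).choose b ≤ (n + b').choose b' := by
  rw [← Nat.choose_symm_add (a := n) (b := b), ← Nat.choose_symm_add (a := n) (b := b')]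
  exact Nat.choose_le_choose n (by omega)

/-- `C(n+b, b) ≤ (1+β)^(n+b)/β^b` -/
lemma choose_le_beta (n b : ℕ) {β : ℝ} (hβ : 0 < β) :
    ((n + b).choose b : ℝ) * β ^ b ≤ (1 + β) ^ (n + b) := by
  rw [add_comm 1 β, add_pow]
  have h := Finset.single_le_sum (f := fun m => β ^ m * 1 ^ (n + b - m) * ((n + b).choose m : ℝ))
    (s := Finset.range (n + b + 1)) (fun i _ => by positivity)
    (Finset.mem_range.2 (by omega : b < n + b + 1))
  refine le_trans (le_of_eq ?_) h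
  simp [mul_comm]

/-- `C(n+b, b)^7 ≤ (8^8/7^7)^n` for `7b ≤ n` -/
lemma choose_seven {n b : ℕ} (h : 7 * b ≤ n) :
    ((n + b).choose b : ℝ) ≤ (1.5382 : ℝ) ^ n := by
  have h1 := choose_le_beta n b (β := 1 / 7) (by norm_num)
  have h2 : ((n + b).choose b : ℝ) ≤ (8 / 7) ^ n * 8 ^ b := by
    have e : (1 + 1 / 7 : ℝ) ^ (n + b) = (8 / 7) ^ n * 8 ^ b * (1 / 7) ^ b := by
      rw [show (1 + 1 / 7 : ℝ) = 8 / 7 by norm_num, pow_add, mul_assoc, ← mul_pow]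
      norm_num
    rw [e] at h1
    exact le_of_mul_le_mul_right h1 (by positivity)
  refine h2.trans ?_
  refine le_of_pow_le_pow_left₀ (n := 7) (by norm_num) (by positivity) ?_
  calc (((8:ℝ) / 7) ^ n * 8 ^ b) ^ 7 = ((8 / 7 : ℝ) ^ 7) ^ n * 8 ^ (7 * b) := by
        rw [mul_pow, ← pow_mul, ← pow_mul, ← pow_mul, mul_comm n 7, mul_comm b 7]
    _ ≤ ((8 / 7 : ℝ) ^ 7) ^ n * 8 ^ n := by
        gcongr
        norm_num
    _ = ((8 / 7 : ℝ) ^ 7 * 8) ^ n := by rw [mul_pow]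
    _ ≤ ((1.5382 : ℝ) ^ 7) ^ n := by
        gcongr
        norm_num
    _ = _ := by rw [← pow_mul, ← pow_mul, mul_comm 7 n]

lemma num_large : ∀ n : ℕ, 50 ≤ n → ((n:ℝ) + 1) ^ (n + 1) <
    ((2 + 2 / (1.5382:ℝ) ^ 2) / 1.0019) ^ n * n.factorial := by
  refine Pool.Agent.W570.NQ.grow ((2 + 2 / (1.5382:ℝ) ^ 2) / 1.0019) 50 ?_ ?_
  · have h1 : Real.exp (1 + 1 / (((50:ℕ):ℝ) + 1)) ^ 51 = Real.exp 1 ^ 52 := by
      rw [← Real.exp_nat_mul, ← Real.exp_nat_mul]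
      congr 1
      norm_num
    have h2 : Real.exp 1 ^ 52 ≤ (2.7182818286 : ℝ) ^ 52 :=
      pow_le_pow_left₀ (Real.exp_pos _).le Pool.Agent.W570.NQ.exp_bound.le 52
    have h3 : (2.7182818286 : ℝ) ^ 52 ≤ ((2 + 2 / (1.5382:ℝ) ^ 2) / 1.0019) ^ 51 := by norm_num
    have h4 : Real.exp (1 + 1 / (((50:ℕ):ℝ) + 1)) ^ 51 ≤ ((2 + 2 / (1.5382:ℝ) ^ 2) / 1.0019) ^ 51 := by
      rw [h1]; exact h2.trans h3
    exact le_of_pow_le_pow_left₀ (by norm_num) (by norm_num) h4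
  · have h1 : ((51:ℕ):ℚ) ^ 51 < ((2 + 2 / (1.5382:ℚ) ^ 2) / 1.0019) ^ 50 * ((50:ℕ).factorial : ℚ) := by
      decide +kernel
    have h2 : (((51:ℕ):ℚ) ^ 51 : ℝ) < (((2 + 2 / (1.5382:ℚ) ^ 2) / 1.0019) ^ 50 *
        ((50:ℕ).factorial : ℚ) : ℚ) := by exact_mod_cast h1
    push_cast at h2 ⊢
    norm_num at h2 ⊢

/-- for `n > 7b`: a number `q` with `C(n+b, b) ≤ qⁿ` and `(1.0019)ⁿ (n+1)^(n+1)/n! < (2+2/q²)ⁿ` -/
theorem num_all {n b : ℕ} (hb : 1 ≤ b) (h : 7 * b < n) : ∃ q : ℝ, 0 < q ∧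
    ((n + b).choose b : ℝ) ≤ q ^ n ∧
    (1.0019 : ℝ) ^ n * (((n : ℝ) + 1) ^ (n + 1) / n.factorial) < (2 + 2 / q ^ 2) ^ n := by
  have hf : (0:ℝ) < n.factorial := by exact_mod_cast n.factorial_pos
  by_cases hn : n < 50
  · obtain ⟨h1, h2, h3⟩ := small_check n (Finset.mem_Icc.2 ⟨by omega, by omega⟩)
    have h1' : (0:ℝ) < (qq n : ℝ) := by exact_mod_cast h1
    have h2' : ((n + (n - 1) / 7).choose ((n - 1) / 7) : ℝ) ≤ (qq n : ℝ) ^ n := by exact_mod_cast h2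
    have h3' : (10019 / 10000 : ℝ) ^ n * ((n : ℝ) + 1) ^ (n + 1) <
        (2 + 2 / (qq n : ℝ) ^ 2) ^ n * (n.factorial : ℝ) := by
      have h4 : (((10019 / 10000 : ℚ) ^ n * ((n : ℚ) + 1) ^ (n + 1) : ℚ) : ℝ) <
        (((2 + 2 / qq n ^ 2) ^ n * (n.factorial : ℚ) : ℚ) : ℝ) := Rat.cast_lt.2 h3
      push_cast at h4
      exact h4
    refine ⟨qq n, h1', ?_, ?_⟩
    · refine le_trans ?_ h2'
      exact_mod_cast choose_mono (by omega)
    · rw [← mul_div_assoc, div_lt_iff₀ hf, show (1.0019 : ℝ) = 10019 / 10000 by norm_num]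
      exact h3'
  · have h1 := num_large n (by omega)
    refine ⟨1.5382, by norm_num, choose_seven (by omega), ?_⟩
    rw [← mul_div_assoc, div_lt_iff₀ hf]
    have h2 : (1.0019 : ℝ) ^ n * (((2 + 2 / (1.5382:ℝ) ^ 2) / 1.0019) ^ n * n.factorial) =
        (2 + 2 / (1.5382:ℝ) ^ 2) ^ n * n.factorial := by
      rw [← mul_assoc, ← mul_pow]
      congr 2
      norm_num
    rw [← h2]
    exact mul_lt_mul_of_pos_left h1 (by positivity)

/-- `β(p) ≤ 1.0019` for `p ≥ 6000` -/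
lemma bet_big {p : ℝ} (hp : 6000 ≤ p) : Pool.Agent.W570.NQ.bet p ≤ 1.0019 := by
  have hp0 : 0 < p := by linarith
  rw [Pool.Agent.W570.NQ.bet_eq hp0]
  have h1 : (1 + p) ^ (1 / p) ≤ 1.0015 := by
    have h2 : 1 + p ≤ (1.0015 : ℝ) ^ p := by
      have h3 : 1 + p / 6000 * 6000 ≤ (1 + 6000 : ℝ) ^ (p / 6000) :=
        one_add_mul_self_le_rpow_one_add (by norm_num) (by rw [le_div_iff₀ (by norm_num)]; linarith)
      have h7 : (1 + 6000 : ℝ) ≤ (1.0015 : ℝ) ^ 6000 := by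
        have e1 : (1.0778 : ℝ) ≤ (1.0015 : ℝ) ^ 50 := by norm_num
        have e2 : (1 + 6000 : ℝ) ≤ (1.0778 : ℝ) ^ 120 := by norm_num
        calc (1 + 6000 : ℝ) ≤ (1.0778 : ℝ) ^ 120 := e2
          _ ≤ ((1.0015 : ℝ) ^ 50) ^ 120 := by gcongr
          _ = _ := by rw [← pow_mul]
      have h4 : (1 + 6000 : ℝ) ^ (p / 6000) ≤ ((1.0015 : ℝ) ^ 6000) ^ (p / 6000) :=
        Real.rpow_le_rpow (by norm_num) h7 (by positivity)
      have h5 : ((1.0015 : ℝ) ^ 6000) ^ (p / 6000) = (1.0015 : ℝ) ^ p := by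
        rw [← Real.rpow_natCast, ← Real.rpow_mul (by norm_num)]
        congr 1
        push_cast
        ring
      have h6 : p / 6000 * 6000 = p := by ring
      rw [h6] at h3
      linarith
    calc (1 + p) ^ (1 / p) ≤ ((1.0015 : ℝ) ^ p) ^ (1 / p) :=
          Real.rpow_le_rpow (by linarith) h2 (by positivity)
      _ = 1.0015 := by
          rw [← Real.rpow_mul (by norm_num)]
          have : p * (1 / p) = 1 := by field_simp
          rw [this, Real.rpow_one]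
  have h2 : 1 + 1 / p ≤ 1.0002 := by
    have : 1 / p ≤ 1 / 6000 := one_div_le_one_div_of_le (by norm_num) hp
    norm_num at this ⊢
    linarith
  calc (1 + p) ^ (1 / p) * (1 + 1 / p) ≤ 1.0015 * 1.0002 := by gcongr
    _ ≤ 1.0019 := by norm_num

end Pool.Agent.TH666.MS
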