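import Pool.Agent.TH666.MS.C

set_option autoImplicit false

open MeasureTheory
open scoped ENNReal Pointwise

namespace Pool.Agent.TH666.MS

variable {n : ℕ}

/-- For some linear subspace `F` of codimension `b`, each section `K ∩ (x + F)`, reflected in a
suitable point, is contained in `ρ K`. -/
def Refl (b : ℕ) (ρ : ℝ) (K : Set (Fin n → ℝ)) : Prop :=
  ∃ F : Submodule ℝ (Fin n → ℝ), Module.finrank ℝ F + b = n ∧
    ∀ x ∈ K, ∃ c : Fin n → ℝ, ∀ y ∈ K, y - x ∈ F → c - y ∈ ρ • K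

lemma exists_proj {b : ℕ} (F : Submodule ℝ (Fin n → ℝ)) (hF : Module.finrank ℝ F + b = n) :
    ∃ π : (Fin n → ℝ) →ₗ[ℝ] (Fin b → ℝ), Function.Surjective π ∧ ∀ x y, π y = π x ↔ y - x ∈ F := by
  have h1 : Module.finrank ℝ ((Fin n → ℝ) ⧸ F) = Module.finrank ℝ (Fin b → ℝ) := by
    have h2 := Submodule.finrank_quotient_add_finrank F
    rw [Module.finrank_fin_fun] at h2 ⊢
    omega
  let e : ((Fin n → ℝ) ⧸ F) ≃ₗ[ℝ] (Fin b → ℝ) := LinearEquiv.ofFinrankEq _ _ h1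
  refine ⟨e.toLinearMap ∘ₗ F.mkQ, ?_, fun x y => ?_⟩
  · intro y
    obtain ⟨x, hx⟩ := F.mkQ_surjective (e.symm y)
    exact ⟨x, by simp [hx]⟩
  · simp only [LinearMap.coe_comp, Function.comp_apply, LinearEquiv.coe_coe, e.injective.eq_iff,
      Submodule.mkQ_apply, Submodule.Quotient.eq]

theorem diff_refl {b : ℕ} (hb : 1 ≤ b) {ρ : ℝ} (hρ : 0 ≤ ρ) {K : Set (Fin n → ℝ)} (hK : Convex ℝ K)
    (hc : IsCompact K) (hi : (interior K).Nonempty) (h : Refl b ρ K) :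
    volume.real (K - K) ≤ ((n + b).choose b * (1 + ρ) ^ n) * volume.real K := by
  obtain ⟨F, hF, h⟩ := h
  obtain ⟨π, hπ, hker⟩ := exists_proj F hF
  have h1 := diff_le (π := π) hb hρ hK hc hi hπ (fun x hx => by
    obtain ⟨c, hc⟩ := h x hx
    exact ⟨c, fun y hy hyx => hc y hy ((hker x y).1 hyx)⟩)
  have h2 := ENNReal.toReal_mono (ENNReal.mul_ne_top ENNReal.ofReal_ne_top hc.measure_ne_top) h1
  rw [ENNReal.toReal_mul, ENNReal.toReal_ofReal (by positivity)] at h2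
  exact h2

theorem main_low {b : ℕ} (hb : 1 ≤ b) {ρ : ℝ} (hρ : 0 ≤ ρ) (hn : 1 ≤ n) {K : Set (Fin n → ℝ)}
    (hK : Convex ℝ K) (hc : IsCompact K) (hi : (interior K).Nonempty) (h : Refl b ρ K) :
    ENNReal.ofReal ((2 + 8 / ((1 + ρ) * ((n + b).choose b : ℝ) ^ ((1:ℝ) / n)) ^ 2) ^ n) ≤
      Pool.Agent.W570.AV.mah K := by
  have hC : (0:ℝ) < ((n + b).choose b : ℝ) := by
    exact_mod_cast Nat.choose_pos (by omega : b ≤ n + b)
  have hnr : (0:ℝ) < n := by exact_mod_cast hn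
  refine Pool.Agent.W570.NQ.mah_low_kappa hn hK hc hi (by positivity) ?_
  refine (diff_refl hb hρ hK hc hi h).trans (le_of_eq ?_)
  rw [mul_pow, ← Real.rpow_natCast (((n + b).choose b : ℝ) ^ ((1:ℝ) / n)), ← Real.rpow_mul hC.le]
  have : (1:ℝ) / n * n = 1 := by field_simp
  rw [this, Real.rpow_one]
  ring

theorem kap_cond {b : ℕ} (hb : 1 ≤ b) {K : Set (Fin n → ℝ)}
    (hK : Convex ℝ K) (hc : IsCompact K) (hi : (interior K).Nonempty) (h : Refl b 1 K) {q : ℝ}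
    (hq : ((n + b).choose b : ℝ) ≤ q ^ n) :
    volume.real (K - K) ≤ (2 * q) ^ n * volume.real K := by
  refine (diff_refl hb zero_le_one hK hc hi h).trans ?_
  rw [mul_pow, mul_comm ((2:ℝ) ^ n), show (1 + 1 : ℝ) = 2 by norm_num]
  gcongr

theorem main_inf {b : ℕ} (hb : 1 ≤ b) (hn : 7 * b < n) {K : Set (Fin n → ℝ)}
    (hK : Convex ℝ K) (hc : IsCompact K) (hi : (interior K).Nonempty) (h : Refl b 1 K) :
    Pool.Agent.W570.NQ.infi n < Pool.Agent.W570.AV.mah K := by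
  obtain ⟨q, hq0, hq1, hq2⟩ := num_all hb hn
  refine Pool.Agent.W570.NQ.crit_i_kappa (κ := 2 * q) (by omega) hK hc hi (by positivity)
    (kap_cond hb hK hc hi h hq1) ?_
  have h1 : (2 + 8 / (2 * q) ^ 2 : ℝ) = 2 + 2 / q ^ 2 := by
    have : q ≠ 0 := hq0.ne'
    field_simp
    ring
  rw [h1]
  refine lt_of_le_of_lt ?_ hq2
  have h2 : (1:ℝ) ≤ 1.0019 ^ n := one_le_pow₀ (by norm_num)
  have h3 : (0:ℝ) ≤ ((n : ℝ) + 1) ^ (n + 1) / n.factorial := by positivity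
  nlinarith

theorem main_fin {b : ℕ} (hb : 1 ≤ b) (hn : 7 * b < n) {p : ℝ} (hp : 6000 ≤ p)
    {K : Set (Fin n → ℝ)}
    (hK : Convex ℝ K) (hc : IsCompact K) (hi : (interior K).Nonempty) (h : Refl b 1 K) :
    Pool.Agent.W570.NQ.infp n p < Pool.Agent.W570.NQ.mahp p K := by
  obtain ⟨q, hq0, hq1, hq2⟩ := num_all hb hn
  have hp0 : 0 < p := by linarith
  refine Pool.Agent.W570.NQ.crit_p_kappa (κ := 2 * q) hp0 (by omega) hK hc hi (by positivity)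
    (kap_cond hb hK hc hi h hq1) ?_
  have h1 : (2 + 8 / (2 * q) ^ 2 : ℝ) = 2 + 2 / q ^ 2 := by
    have : q ≠ 0 := hq0.ne'
    field_simp
    ring
  rw [h1]
  refine lt_of_le_of_lt ?_ hq2
  have h2 := pow_le_pow_left₀ (Pool.Agent.W570.NQ.bet_pos hp0).le (bet_big hp) n
  have h3 : (0:ℝ) ≤ ((n : ℝ) + 1) ^ (n + 1) / n.factorial := by positivity
  exact mul_le_mul_of_nonneg_right h2 h3

lemma choose_beta {b : ℕ} {β : ℝ} (hβ : 0 < β) (hb : (b:ℝ) ≤ β * n) :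
    ((n + b).choose b : ℝ) ≤ ((1 + β) * ((1 + β) / β) ^ β) ^ n := by
  have h1 := choose_le_beta n b hβ
  have h2 : ((n + b).choose b : ℝ) ≤ (1 + β) ^ n * ((1 + β) / β) ^ b := by
    have e : (1 + β) ^ (n + b) = (1 + β) ^ n * ((1 + β) / β) ^ b * β ^ b := by
      rw [pow_add, mul_assoc, ← mul_pow]
      congr 2
      field_simp
    rw [e] at h1
    exact le_of_mul_le_mul_right h1 (by positivity)
  refine h2.trans ?_
  rw [mul_pow]
  gcongr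
  rw [← Real.rpow_natCast, ← Real.rpow_natCast, ← Real.rpow_mul (by positivity)]
  exact Real.rpow_le_rpow_of_exponent_le (by rw [one_le_div hβ]; linarith) hb

theorem main_asym {ρ β : ℝ} (hρ : 0 ≤ ρ) (hβ : 0 < β)
    (h : ((1 + ρ) * ((1 + β) * ((1 + β) / β) ^ β)) ^ 2 * (Real.exp 1 - 2) < 8) :
    ∃ (p0 : ℝ) (n0 : ℕ), 0 < p0 ∧ ∀ n : ℕ, n0 ≤ n → ∀ b : ℕ, 1 ≤ b → (b:ℝ) ≤ β * n →
      ∀ K : Set (Fin n → ℝ), Convex ℝ K → IsCompact K → (interior K).Nonempty → Refl b ρ K →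
      Pool.Agent.W570.NQ.infi n < Pool.Agent.W570.AV.mah K ∧
      ∀ p : ℝ, p0 ≤ p → Pool.Agent.W570.NQ.infp n p < Pool.Agent.W570.NQ.mahp p K := by
  obtain ⟨p0, n0, hp0, H⟩ := Pool.Agent.W570.NQ.all_kappa
    (κ := (1 + ρ) * ((1 + β) * ((1 + β) / β) ^ β)) (by positivity) h
  refine ⟨p0, n0, hp0, fun n hn b hb hbn K hK hc hi hr => H n hn K hK hc hi ?_⟩
  refine (diff_refl hb hρ hK hc hi hr).trans ?_
  rw [mul_pow, mul_comm ((1 + ρ) ^ n)]
  gcongr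
  exact choose_beta hβ hbn

end Pool.Agent.TH666.MS
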